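import Pool.Agent.Helper7.EC_E.GoalsS

/-!
# MP_ecc237_nt, Part E, packet K0: the part `k = 0` of the main terms
-/

set_option autoImplicit false

open MeasureTheory Filter Topology Set

namespace EC237.ZE.PkK0

open EC237 EC237.ZE

/-- the sampling points, real -/
noncomputable def tr (z : ℝ) (j : ℤ) : ℝ := (6 * (j:ℝ) + 2) / z

theorem tr_cast (z : ℝ) (j : ℤ) : ((tr z j : ℝ) : ℂ) = (6 * (j:ℂ) + 2) / (z:ℂ) := by
  unfold tr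
  push_cast
  rfl

theorem six_ne (j : ℤ) : (6 * (j:ℝ) + 2) ≠ 0 := by
  intro h
  have h1 : ((6 * j + 2 : ℤ) : ℝ) = ((0 : ℤ) : ℝ) := by push_cast; exact h
  have h2 : (6 * j + 2 : ℤ) = 0 := by exact_mod_cast h1
  omega

theorem tr_ne (z : ℝ) (hz : 0 < z) (j : ℤ) : tr z j ≠ 0 := by
  unfold tr
  exact div_ne_zero (six_ne j) hz.ne'

theorem tr_mul (z : ℝ) (hz : 0 < z) (j : ℤ) : 6 * (j:ℝ) + 2 = z * tr z j := by
  unfold tr
  field_simp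

/-- the algebra of one term -/
theorem alg (z t g gz h : ℂ) (P w : ℂ) (hz : z ≠ 0) (ht : t ≠ 0)
    (e1 : g = gz + t ^ 2 * h) :
    2 / 3 * z ^ 3 * ((z⁻¹ * (8 * P / 3 * (t * g) - 4 * w * ((t ^ 2 - 0 ^ 2) / (t ^ 2 + 0 ^ 2) ^ 2)) +
      -(2 * P ^ 2 / 9) * (t / (t ^ 2 + 0 ^ 2))) *
      (z⁻¹ * (-(8 * P) * (t * g)) + P ^ 2 / 2 * (t / (t ^ 2 + 0 ^ 2)))) / (z * t) ^ 2 =
    2 / 3 * (z⁻¹ * (-(64 * P ^ 2 / 3) * g ^ 2 + 32 * P * w * (gz * (1 / t ^ 3) + h / t)) +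
      28 * P ^ 3 / 9 * (gz * (1 / t ^ 2) + h) - 2 * P ^ 2 * w * (1 / t ^ 5) -
      P ^ 4 / 9 * (z * (1 / t ^ 4))) := by
  have e2 : h = (g - gz) / t ^ 2 := by
    rw [e1]; field_simp; ring
  rw [e2]
  field_simp
  ring

theorem term (h2 : G_K0F) (z : ℝ) (hz : 0 < z) (j : ℤ) :
    tA z (0, 6 * j + 2) = 2 / 3 * ((z:ℂ)⁻¹ * (-(64 * (Real.pi:ℂ) ^ 2 / 3) * gh (tr z j) ^ 2 +
      32 * Real.pi * w1 * (gh 0 * (1 / (tr z j : ℂ) ^ 3) +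
        (g2 0 * (1 / ((tr z j : ℂ) * (1 + (tr z j : ℂ) ^ 2))) + g3 (tr z j)))) +
      28 * (Real.pi:ℂ) ^ 3 / 9 * (gh 0 * (1 / (tr z j : ℂ) ^ 2) + g2 (tr z j)) -
      2 * (Real.pi:ℂ) ^ 2 * w1 * (1 / (tr z j : ℂ) ^ 5) -
      (Real.pi:ℂ) ^ 4 / 9 * ((z:ℂ) * (1 / (tr z j : ℂ) ^ 4))) := by
  obtain ⟨C, _, _, hg, hg2, _, _, htau, _⟩ := h2
  have hcl : InCl 2 ((0:ℤ), 6 * j + 2) := by
    unfold InCl
    simp
  have ht0 : (tr z j : ℂ) ≠ 0 := by exact_mod_cast tr_ne z hz j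
  have hz0 : (z:ℂ) ≠ 0 := by exact_mod_cast hz.ne'
  have htz : tz z ((0:ℤ), 6 * j + 2) = (tr z j : ℂ) := by
    unfold tz
    rw [tr_cast]
    push_cast
    rfl
  have hN : ((Nz z ((0:ℤ), 6 * j + 2) : ℝ) : ℂ) = ((z:ℂ) * (tr z j : ℂ)) ^ 2 := by
    unfold Nz
    have : ((6 * j + 2 : ℤ) : ℝ) = z * tr z j := by
      push_cast; exact tr_mul z hz j
    simp only [this]
    push_cast
    ring
  unfold tA
  rw [if_pos hcl, hN]
  unfold yM vM aF bF cF dF ph1 mu0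
  simp only [htz]
  rw [htau]
  have hzz : ((0:ℤ):ℂ) = 0 := by norm_num
  rw [hzz]
  rw [alg (z:ℂ) (tr z j : ℂ) (gh (tr z j)) (gh 0) (g2 (tr z j)) (Real.pi:ℂ) (w1:ℂ) hz0 ht0 (hg (tr z j))]
  have e3 : g2 (tr z j) / (tr z j : ℂ) = g2 0 * (1 / ((tr z j : ℂ) * (1 + (tr z j : ℂ) ^ 2))) +
      g3 (tr z j) := by
    have h := hg2 (tr z j)
    rw [h]
    rw [add_div, mul_div_cancel_left₀ _ ht0, div_div, mul_comm (1 + (tr z j : ℂ) ^ 2)]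
    ring
  rw [e3]

theorem z2_summable (r : ℕ) (hr : 2 ≤ r) : Summable (fun j : ℤ => 1 / (6 * (j:ℂ) + 2) ^ r) := by
  have h := (Real.summable_one_div_int_add_rpow (1 / 3) (r:ℝ)).mpr (by exact_mod_cast hr)
  apply Summable.of_norm
  refine (h.mul_left (1 / 6 ^ r)).congr (fun j => ?_)
  have e : (6 * (j:ℂ) + 2) = ((6 * ((j:ℝ) + 1 / 3) : ℝ) : ℂ) := by
    push_cast; ring
  rw [e, norm_div, norm_pow, Complex.norm_real, Real.norm_eq_abs, abs_mul, norm_one,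
    Real.rpow_natCast, mul_pow, abs_of_pos (show (0:ℝ) < 6 by norm_num), one_div_mul_one_div]

theorem pow_hasSum (r : ℕ) (hr : 2 ≤ r) (z : ℝ) :
    HasSum (fun j : ℤ => 1 / (tr z j : ℂ) ^ r) ((z:ℂ) ^ r * Z2 r) := by
  have h := ((z2_summable r hr).hasSum).mul_left ((z:ℂ) ^ r)
  have e : (fun j : ℤ => 1 / (tr z j : ℂ) ^ r) = fun j : ℤ => (z:ℂ) ^ r * (1 / (6 * (j:ℂ) + 2) ^ r) := by
    funext j
    rw [tr_cast, div_pow, one_div_div, mul_one_div]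
  rw [e]
  exact h

theorem tsum_m (z : ℝ) : ∑' m : ℤ, tA z (0, m) = ∑' j : ℤ, tA z (0, 6 * j + 2) := by
  have hinj : Function.Injective (fun j : ℤ => 6 * j + 2) := by
    intro a b h
    simp only at h
    omega
  have h := hinj.tsum_eq (f := fun m : ℤ => tA z (0, m)) ?_
  · exact h.symm
  · intro m hm
    rw [Function.mem_support] at hm
    by_contra hne
    apply hm
    unfold tA
    rw [if_neg]
    intro hc
    unfold InCl at hc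
    apply hne
    refine ⟨(m - 2) / 6, ?_⟩
    simp only at hc ⊢
    omega

theorem thm (h1 : EC237.ZE.G_ST) (h2 : EC237.ZE.G_K0F) (h3 : EC237.ZE.G_K0C) :
    EC237.ZE.G_K0 := by
  obtain ⟨C, hC, hST⟩ := h1
  have h2' := h2
  obtain ⟨D, hD, hF, _, _, hg20, hodd, _, hint⟩ := h2'
  obtain ⟨hK, hKs⟩ := h3
  have hcast : ∀ (z : ℝ) (j : ℤ), (6 * (j:ℂ) + ((2:ℤ):ℂ)) / (z:ℂ) = (tr z j : ℂ) := by
    intro z j
    rw [tr_cast]; norm_num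
  -- the three strips
  have strip : ∀ F ∈ ({fun t => gh t ^ 2, g2, g3} : Set (ℂ → ℂ)),
      (∀ z : ℝ, 1 ≤ z → Summable (fun j : ℤ => F (tr z j))) ∧
      Tendsto (fun z : ℝ => ∑' j : ℤ, F (tr z j) - (z:ℂ) / 6 * ∫ t : ℝ, F (t:ℂ)) atTop (𝓝 0) := by
    intro F hFm
    obtain ⟨hd, hb⟩ := hF F hFm
    have hs := fun (z : ℝ) (hz : 1 ≤ z) => hST F D hD.le hd hb z hz 2
    simp only [hcast] at hs
    refine ⟨fun z hz => (hs z hz).1, ?_⟩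
    have hlim : Tendsto (fun z : ℝ => C * D * Real.exp (-(z / 4))) atTop (𝓝 0) := by
      have h4 : Tendsto (fun z : ℝ => Real.exp (-(z / 4))) atTop (𝓝 0) :=
        Real.tendsto_exp_neg_atTop_nhds_zero.comp (tendsto_id.atTop_div_const (by norm_num))
      simpa using h4.const_mul (C * D)
    refine squeeze_zero_norm' ?_ hlim
    filter_upwards [eventually_ge_atTop (1:ℝ)] with z hz
    exact (hs z hz).2
  obtain ⟨sA, lA⟩ := strip (fun t => gh t ^ 2) (by simp)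
  obtain ⟨sB, lB⟩ := strip g2 (by simp)
  obtain ⟨sC, lC⟩ := strip g3 (by simp)
  have hI3 : ∫ t : ℝ, g3 (t:ℂ) = 0 := by
    have h4 := integral_neg_eq_self (fun t : ℝ => g3 (t:ℂ)) volume
    have h5 : ∫ t : ℝ, g3 ((-t : ℝ):ℂ) = -∫ t : ℝ, g3 (t:ℂ) := by
      rw [← integral_neg]
      congr 1
      funext t
      rw [← hodd t]
      push_cast
      rfl
    rw [h5] at h4
    exact self_eq_neg.mp h4.symm
  set I2 : ℂ := ∫ t : ℝ, g2 (t:ℂ) with hI2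
  refine ⟨2 / 3 * (28 * (Real.pi:ℂ) ^ 3 / 9 * (1 / 6 * I2)),
    2 / 3 * (32 * Real.pi * w1 * gh 0 * Z2 3 + 28 * (Real.pi:ℂ) ^ 3 / 9 * gh 0 * Z2 2),
    2 / 3 * (-(2 * (Real.pi:ℂ) ^ 2 * w1 * Z2 5) - (Real.pi:ℂ) ^ 4 / 9 * Z2 4), ?_, ?_⟩
  · have hzinv : Tendsto (fun z : ℝ => ((z:ℂ))⁻¹) atTop (𝓝 0) := by
      have h4 := (Complex.continuous_ofReal.tendsto 0).comp tendsto_inv_atTop_zero
      simpa [Function.comp_def] using h4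
    have mA : Tendsto (fun z : ℝ => (z:ℂ)⁻¹ * ∑' j : ℤ, gh (tr z j) ^ 2) atTop
        (𝓝 (1 / 6 * ∫ t : ℝ, gh (t:ℂ) ^ 2)) := by
      have h4 := (hzinv.mul lA).add_const (1 / 6 * ∫ t : ℝ, gh (t:ℂ) ^ 2)
      rw [mul_zero, zero_add] at h4
      refine h4.congr' ?_
      filter_upwards [eventually_gt_atTop (0:ℝ)] with z hz
      have hz0 : (z:ℂ) ≠ 0 := by exact_mod_cast hz.ne'
      field_simp
      ring
    have mC : Tendsto (fun z : ℝ => (z:ℂ)⁻¹ * ∑' j : ℤ, g3 (tr z j)) atTop (𝓝 0) := by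
      have h4 := hzinv.mul lC
      rw [hI3] at h4
      simpa using h4
    have hsumK : ∀ z : ℝ, (∑' j : ℤ, 1 / ((6 * (j:ℂ) + 2) / z * (1 + ((6 * (j:ℂ) + 2) / z) ^ 2))) =
        ∑' j : ℤ, 1 / ((tr z j : ℂ) * (1 + (tr z j : ℂ) ^ 2)) := by
      intro z
      congr 1
      funext j
      rw [tr_cast]
    simp only [hsumK] at hK
    have total : Tendsto (fun z : ℝ => 2 / 3 * (-(64 * (Real.pi:ℂ) ^ 2 / 3) *
        ((z:ℂ)⁻¹ * ∑' j : ℤ, gh (tr z j) ^ 2) +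
        32 * Real.pi * w1 * (g2 0 * ((z:ℂ)⁻¹ * ∑' j : ℤ, 1 / ((tr z j : ℂ) * (1 + (tr z j : ℂ) ^ 2))) +
          (z:ℂ)⁻¹ * ∑' j : ℤ, g3 (tr z j)) +
        28 * (Real.pi:ℂ) ^ 3 / 9 * (∑' j : ℤ, g2 (tr z j) - (z:ℂ) / 6 * I2))) atTop
        (𝓝 (2 / 3 * (-(64 * (Real.pi:ℂ) ^ 2 / 3) * (1 / 6 * ∫ t : ℝ, gh (t:ℂ) ^ 2) +
        32 * Real.pi * w1 * (g2 0 * ((Real.pi / (6 * Real.sqrt 3) : ℝ) : ℂ) + 0) +
        28 * (Real.pi:ℂ) ^ 3 / 9 * 0))) :=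
      (((mA.const_mul _).add (((hK.const_mul _).add mC).const_mul _)).add
        (lB.const_mul _)).const_mul _
    have hval : (2 / 3 * (-(64 * (Real.pi:ℂ) ^ 2 / 3) * (1 / 6 * ∫ t : ℝ, gh (t:ℂ) ^ 2) +
        32 * Real.pi * w1 * (g2 0 * ((Real.pi / (6 * Real.sqrt 3) : ℝ) : ℂ) + 0) +
        28 * (Real.pi:ℂ) ^ 3 / 9 * 0)) = ((2 / 3 * (1 / 6 * (-(64 * Real.pi ^ 2 / 3)) *
      (∫ t : ℝ, taur 0 t ^ 2 / (t ^ 2 + ((0:ℤ):ℝ) ^ 2)) -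
      2 * Real.pi * w1 * (Real.pi / (6 * Real.sqrt 3)) * zeta5) : ℝ) : ℂ) := by
      rw [hint, hg20]
      push_cast
      ring
    rw [hval] at total
    refine total.congr' ?_
    filter_upwards [eventually_ge_atTop (1:ℝ)] with z hz
    have hz0 : 0 < z := by linarith
    have hzc : (z:ℂ) ≠ 0 := by exact_mod_cast hz0.ne'
    have kS : Summable (fun j : ℤ => 1 / ((tr z j : ℂ) * (1 + (tr z j : ℂ) ^ 2))) := by
      refine (hKs z hz).congr (fun j => ?_)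
      rw [tr_cast]
    have HS : HasSum (fun j : ℤ => tA z (0, 6 * j + 2))
        (2 / 3 * ((z:ℂ)⁻¹ * (-(64 * (Real.pi:ℂ) ^ 2 / 3) * (∑' j : ℤ, gh (tr z j) ^ 2) +
      32 * Real.pi * w1 * (gh 0 * ((z:ℂ) ^ 3 * Z2 3) +
        (g2 0 * (∑' j : ℤ, 1 / ((tr z j : ℂ) * (1 + (tr z j : ℂ) ^ 2))) + ∑' j : ℤ, g3 (tr z j)))) +
      28 * (Real.pi:ℂ) ^ 3 / 9 * (gh 0 * ((z:ℂ) ^ 2 * Z2 2) + ∑' j : ℤ, g2 (tr z j)) -
      2 * (Real.pi:ℂ) ^ 2 * w1 * ((z:ℂ) ^ 5 * Z2 5) -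
      (Real.pi:ℂ) ^ 4 / 9 * ((z:ℂ) * ((z:ℂ) ^ 4 * Z2 4)))) := by
      have H := ((((((sA z hz).hasSum.mul_left (-(64 * (Real.pi:ℂ) ^ 2 / 3))).add
        ((((pow_hasSum 3 (by norm_num) z).mul_left (gh 0)).add
          ((kS.hasSum.mul_left (g2 0)).add (sC z hz).hasSum)).mul_left
            (32 * (Real.pi:ℂ) * (w1:ℂ)))).mul_left ((z:ℂ)⁻¹)).add
        ((((pow_hasSum 2 (by norm_num) z).mul_left (gh 0)).add (sB z hz).hasSum).mul_left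
          (28 * (Real.pi:ℂ) ^ 3 / 9))).sub
        ((pow_hasSum 5 (by norm_num) z).mul_left (2 * (Real.pi:ℂ) ^ 2 * (w1:ℂ)))).sub
        (((pow_hasSum 4 (by norm_num) z).mul_left (z:ℂ)).mul_left ((Real.pi:ℂ) ^ 4 / 9))
      have H2 := H.mul_left (2 / 3)
      rw [show (fun j : ℤ => tA z (0, 6 * j + 2)) = _ from funext (term h2 z hz0)]
      exact H2
    rw [tsum_m, HS.tsum_eq]
    field_simp
    ring
  · intro z m
    unfold tB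
    split
    · have : e0M z ((0:ℤ), m) = 0 := by
        unfold e0M ph
        simp
      rw [this]
      simp
    · rfl

end EC237.ZE.PkK0
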